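import Mathlib

set_option autoImplicit false

/-! Ultrafilter limits of valuation rings. -/

namespace Pool.Agent.Helper51.TT

open Filter

variable {F ι : Type*} [Field F]

/-- The limit of a family of valuation rings along an ultrafilter. -/
def ulim (U : Ultrafilter ι) (A : ι → ValuationSubring F) : ValuationSubring F where
  carrier := {a | ∀ᶠ i in (U : Filter ι), a ∈ A i}
  mul_mem' := by
    intro a b ha hb
    filter_upwards [ha, hb] with i h1 h2
    exact (A i).mul_mem _ _ h1 h2
  one_mem' := Eventually.of_forall fun i => (A i).one_mem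
  add_mem' := by
    intro a b ha hb
    filter_upwards [ha, hb] with i h1 h2
    exact (A i).add_mem _ _ h1 h2
  zero_mem' := Eventually.of_forall fun i => (A i).zero_mem
  neg_mem' := by
    intro a ha
    filter_upwards [ha] with i h1
    exact (A i).neg_mem _ h1
  mem_or_inv_mem' := by
    intro a
    rcases U.em (fun i => a ∈ A i) with h | h
    · exact Or.inl h
    · refine Or.inr ?_
      filter_upwards [h] with i h1
      exact ((A i).mem_or_inv_mem a).resolve_left h1

variable {U : Ultrafilter ι} {A : ι → ValuationSubring F}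

theorem mem_ulim {a : F} : a ∈ ulim U A ↔ ∀ᶠ i in (U : Filter ι), a ∈ A i := Iff.rfl

theorem notMem_ulim {a : F} : a ∉ ulim U A ↔ ∀ᶠ i in (U : Filter ι), a ∉ A i := by
  rw [mem_ulim]
  exact Ultrafilter.eventually_not.symm

theorem val_ulim_le {a : F} : (ulim U A).valuation a ≤ 1 ↔
    ∀ᶠ i in (U : Filter ι), (A i).valuation a ≤ 1 := by
  simp only [ValuationSubring.valuation_le_one_iff, mem_ulim]

theorem val_lt_one_iff (B : ValuationSubring F) {a : F} (ha : a ≠ 0) :
    B.valuation a < 1 ↔ a⁻¹ ∉ B := by
  rw [← ValuationSubring.valuation_le_one_iff, map_inv₀, not_le]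
  rw [one_lt_inv₀ (by
    rw [zero_lt_iff]
    exact (Valuation.ne_zero_iff _).2 ha)]

theorem val_ulim_lt {a : F} : (ulim U A).valuation a < 1 ↔
    ∀ᶠ i in (U : Filter ι), (A i).valuation a < 1 := by
  by_cases ha : a = 0
  · subst ha
    simp
  · simp only [val_lt_one_iff _ ha]
    exact notMem_ulim

theorem val_ulim_eq {a : F} : (ulim U A).valuation a = 1 ↔
    ∀ᶠ i in (U : Filter ι), (A i).valuation a = 1 := by
  constructor
  · intro h
    have h1 := val_ulim_le.1 h.le
    have h2 : ¬ ((ulim U A).valuation a < 1) := by rw [h]; exact lt_irrefl _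
    rw [val_ulim_lt] at h2
    have h3 := Ultrafilter.eventually_not.2 h2
    filter_upwards [h1, h3] with i h4 h5
    exact le_antisymm h4 (not_lt.1 h5)
  · intro h
    refine le_antisymm (val_ulim_le.2 (h.mono fun i hi => hi.le)) (not_lt.1 fun hlt => ?_)
    rw [val_ulim_lt] at hlt
    obtain ⟨i, h1, h2⟩ := (h.and hlt).exists
    exact absurd h1 h2.ne

/-- On a finite set most of the valuation rings agree with the limit. -/
theorem eventually_trace {S : Set F} (hS : S.Finite) :
    ∀ᶠ i in (U : Filter ι), ∀ a ∈ S, (a ∈ A i ↔ a ∈ ulim U A) := by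
  rw [eventually_all_finite hS]
  intro a _
  by_cases h : a ∈ ulim U A
  · filter_upwards [mem_ulim.1 h] with i hi
    exact iff_of_true hi h
  · filter_upwards [notMem_ulim.1 h] with i hi
    exact iff_of_false hi h

theorem le_ulim {B : Subring F} (h : ∀ i, B ≤ (A i).toSubring) : B ≤ (ulim U A).toSubring :=
  fun a ha => Eventually.of_forall fun i => h i ha

end Pool.Agent.Helper51.TT
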